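import Pool.Agent.Helper35.CWS.StA

/-!
Project CWS, module QUO: continuity passes to the quotient, by ultrafilters.
-/

set_option autoImplicit false

namespace Pool.Agent.Helper36.CWS

open Set Topology Metric Filter Pool.Agent.Helper35.CWS

theorem hQUO : StQUO := by
  intro Y Z T _ _ _ _ K G S Q f g hK hGK hQ hsat hg hfg
  intro p hp
  obtain ⟨z0, hz0G, hz0⟩ := hp.2
  classical
  -- a section of `Q` on `Q '' G`
  have hex : ∀ y : Y, ∃ z : Z, y ∈ Q '' G → z ∈ G ∧ Q z = y := by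
    intro y
    by_cases h : y ∈ Q '' G
    · obtain ⟨z, hz, hzy⟩ := h
      exact ⟨z, fun _ => ⟨hz, hzy⟩⟩
    · exact ⟨z0, fun h' => absurd h' h⟩
  choose σ hσ using hex
  have : Tendsto f (𝓝[S ×ˢ (Q '' G)] p) (𝓝 (f p)) := by
    rw [tendsto_iff_ultrafilter]
    intro U hU
    have hmem : ∀ᶠ q in (U : Filter (ℝ × Y)), q ∈ S ×ˢ (Q '' G) :=
      hU self_mem_nhdsWithin
    have hUp : (U : Filter (ℝ × Y)) ≤ 𝓝 p := hU.trans nhdsWithin_le_nhds
    have hVK : ((U.map (fun q : ℝ × Y => σ q.2) : Ultrafilter Z) : Filter Z) ≤ 𝓟 K := by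
      rw [le_principal_iff, Ultrafilter.coe_map, mem_map]
      filter_upwards [hmem] with q hq
      exact hGK (hσ q.2 hq.2).1
    obtain ⟨z1, hz1K, hz1⟩ := hK.ultrafilter_le_nhds _ hVK
    have ht : Tendsto (fun q : ℝ × Y => σ q.2) (U : Filter (ℝ × Y)) (𝓝 z1) := hz1
    have htK : Tendsto (fun q : ℝ × Y => σ q.2) (U : Filter (ℝ × Y)) (𝓝[K] z1) := by
      refine tendsto_nhdsWithin_iff.2 ⟨ht, ?_⟩
      filter_upwards [hmem] with q hq
      exact hGK (hσ q.2 hq.2).1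
    have hQt : Tendsto (fun q : ℝ × Y => Q (σ q.2)) (U : Filter (ℝ × Y)) (𝓝 (Q z1)) :=
      (hQ z1 hz1K).tendsto.comp htK
    have hyt : Tendsto (fun q : ℝ × Y => Q (σ q.2)) (U : Filter (ℝ × Y)) (𝓝 p.2) := by
      have h1 : Tendsto (fun q : ℝ × Y => q.2) (U : Filter (ℝ × Y)) (𝓝 p.2) :=
        (continuous_snd.tendsto p).mono_left hUp
      refine h1.congr' ?_
      filter_upwards [hmem] with q hq
      exact (hσ q.2 hq.2).2.symm
    have hQz1 : Q z1 = p.2 := tendsto_nhds_unique hQt hyt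
    have hz1G : z1 ∈ G := hsat z0 hz0G z1 hz1K (hQz1.trans hz0.symm)
    have hpair : Tendsto (fun q : ℝ × Y => (q.1, σ q.2)) (U : Filter (ℝ × Y))
        (𝓝[S ×ˢ G] (p.1, z1)) := by
      refine tendsto_nhdsWithin_iff.2 ⟨?_, ?_⟩
      · have h1 : Tendsto (fun q : ℝ × Y => q.1) (U : Filter (ℝ × Y)) (𝓝 p.1) :=
          (continuous_fst.tendsto p).mono_left hUp
        exact h1.prodMk_nhds ht
      · filter_upwards [hmem] with q hq
        exact ⟨hq.1, (hσ q.2 hq.2).1⟩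
    have hgt : Tendsto (fun q : ℝ × Y => g (q.1, σ q.2)) (U : Filter (ℝ × Y))
        (𝓝 (g (p.1, z1))) :=
      (hg (p.1, z1) ⟨hp.1, hz1G⟩).tendsto.comp hpair
    have hfp : f p = g (p.1, z1) := by
      rw [← hfg p.1 hp.1 z1 hz1G, hQz1]
    rw [hfp]
    refine hgt.congr' ?_
    filter_upwards [hmem] with q hq
    rw [← hfg q.1 hq.1 (σ q.2) (hσ q.2 hq.2).1, (hσ q.2 hq.2).2]
  exact this

end Pool.Agent.Helper36.CWS
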