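import Pool.Agent.Helper35.CWS.StC

/-!
# Project CWS, module CMN: the base of a cone neighbourhood is a surface
-/

set_option autoImplicit false

namespace Pool.Agent.Helper36.CWS

open Set Topology Metric Pool.Agent.Helper35.CWS Pool.Agent.Helper13.TR

/-- one-dimensional cycles bound locally in an open subspace -/
private theorem lh1_open (hPSH : StPSH) {X : Type} [TopologicalSpace X] (U : Set X)
    (hU : IsOpen U) (h : LH1 X) : LH1 ↥U := by
  intro w O hO hwO
  have hi : IsEmbedding (Subtype.val : ↥U → X) := IsEmbedding.subtypeVal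
  have hio : IsOpen (Subtype.val '' O : Set X) := hU.isOpenMap_subtype_val O hO
  obtain ⟨V', hV', hwV', hV'O, hb⟩ := h w (Subtype.val '' O) hio ⟨w, hwO, rfl⟩
  obtain ⟨p1, -, p3, p4, p5, -⟩ := hPSH ↥U X X ⟨Subtype.val, continuous_subtype_val⟩
    (ContinuousMap.id X)
  refine ⟨Subtype.val ⁻¹' V', hV'.preimage continuous_subtype_val, hwV', ?_, ?_⟩
  · intro y hy
    obtain ⟨y', hy', he⟩ := hV'O hy
    rwa [← Subtype.val_injective he]
  · intro z hz hbz
    have h1 : bd 0 (push ⟨Subtype.val, continuous_subtype_val⟩ 1 z) = (0 : Ch X 0) := by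
      rw [p1 0 z, hbz, map_zero]
    obtain ⟨e, he, hbe⟩ := hb _ (p3 V' 1 z hz) h1
    obtain ⟨e', he', hpe⟩ := p5 hi O 2 e he
    refine ⟨e', he', ?_⟩
    apply p4 Subtype.val_injective 1
    rw [← p1 1 e', hpe, hbe]

private theorem ioo_homeo : Nonempty (ℝ ≃ₜ ↥(Ioo (0 : ℝ) 1)) := by
  have h1 : (OpenPartialHomeomorph.univBall (1 / 2 : ℝ) (1 / 2 : ℝ) : OpenPartialHomeomorph ℝ ℝ).source = univ :=
    OpenPartialHomeomorph.univBall_source _ _
  have h2 : (OpenPartialHomeomorph.univBall (1 / 2 : ℝ) (1 / 2 : ℝ) : OpenPartialHomeomorph ℝ ℝ).target =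
      Ioo (0 : ℝ) 1 := by
    rw [OpenPartialHomeomorph.univBall_target (1 / 2 : ℝ) (by norm_num : (0 : ℝ) < 1 / 2), Real.ball_eq_Ioo]
    norm_num
  exact ⟨((Homeomorph.Set.univ ℝ).symm.trans (Homeomorph.setCongr h1.symm)).trans
    ((OpenPartialHomeomorph.univBall (1 / 2 : ℝ) (1 / 2 : ℝ)).toHomeomorphSourceTarget.trans
      (Homeomorph.setCongr h2))⟩

private theorem disc {L : Type} [TopologicalSpace L] (l : L) (U : Set L) (hU : IsOpen U) (hl : l ∈ U)
    (g : ↥U → ℂ) (hg : IsOpenEmbedding g) :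
    ∃ d : ℂ → L, d 0 = l ∧ ContinuousOn d (closedBall 0 1) ∧ InjOn d (closedBall 0 1) ∧
      IsOpen (d '' ball 0 1) := by
  have hne : Nonempty ↥U := ⟨⟨l, hl⟩⟩
  obtain ⟨c, hc⟩ : ∃ c : ℂ, c = g ⟨l, hl⟩ := ⟨_, rfl⟩
  have hcr : c ∈ range g := ⟨⟨l, hl⟩, hc.symm⟩
  obtain ⟨ρ, hρ, hρs⟩ := Metric.nhds_basis_closedBall.mem_iff.1 (hg.isOpen_range.mem_nhds hcr)
  set e : OpenPartialHomeomorph ↥U ℂ := hg.toOpenPartialHomeomorph g with he
  have hes : ∀ u : ↥U, e.symm (g u) = u := by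
    intro u
    have := e.left_inv (x := u) (by rw [he]; simp)
    rw [he] at this ⊢
    simpa using this
  have hge : ∀ z ∈ range g, g (e.symm z) = z := by
    rintro _ ⟨u, rfl⟩
    rw [hes u]
  have hec : ContinuousOn e.symm (range g) := by
    have := e.symm.continuousOn
    rw [he] at this ⊢
    simpa using this
  have hmap : ∀ w ∈ closedBall (0 : ℂ) 1, c + (ρ : ℂ) * w ∈ range g := by
    intro w hw
    refine hρs ?_
    rw [mem_closedBall_zero_iff] at hw
    rw [mem_closedBall, dist_eq_norm, add_sub_cancel_left, norm_mul, Complex.norm_real, Real.norm_eq_abs,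
      abs_of_pos hρ]
    calc ρ * ‖w‖ ≤ ρ * 1 := by gcongr
      _ = ρ := mul_one ρ
  have hρC : (ρ : ℂ) ≠ 0 := by exact_mod_cast hρ.ne'
  refine ⟨fun w => (e.symm (c + (ρ : ℂ) * w) : L), ?_, ?_, ?_, ?_⟩
  · show (e.symm (c + (ρ : ℂ) * 0) : L) = l
    rw [mul_zero, add_zero, hc, hes]
  · refine continuous_subtype_val.comp_continuousOn (hec.comp (f := fun w : ℂ => c + (ρ : ℂ) * w) ?_ hmap)
    fun_prop
  · intro w hw w' hw' h
    have h1 : e.symm (c + (ρ : ℂ) * w) = e.symm (c + (ρ : ℂ) * w') := Subtype.val_injective h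
    have h2 := congrArg g h1
    rw [hge _ (hmap w hw), hge _ (hmap w' hw')] at h2
    exact mul_left_cancel₀ hρC (add_left_cancel h2)
  · have himg : (fun w => (e.symm (c + (ρ : ℂ) * w) : L)) '' ball 0 1 =
        Subtype.val '' (g ⁻¹' ball c ρ) := by
      ext y
      constructor
      · rintro ⟨w, hw, rfl⟩
        refine ⟨e.symm (c + (ρ : ℂ) * w), ?_, rfl⟩
        rw [mem_preimage, hge _ (hmap w (ball_subset_closedBall hw))]
        rw [mem_ball_zero_iff] at hw
        rw [mem_ball, dist_eq_norm, add_sub_cancel_left, norm_mul, Complex.norm_real, Real.norm_eq_abs,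
          abs_of_pos hρ]
        calc ρ * ‖w‖ < ρ * 1 := by gcongr
          _ = ρ := mul_one ρ
      · rintro ⟨u, hu, rfl⟩
        refine ⟨(g u - c) / (ρ : ℂ), ?_, ?_⟩
        · rw [mem_preimage, mem_ball, dist_eq_norm] at hu
          rw [mem_ball_zero_iff, norm_div, Complex.norm_real, Real.norm_eq_abs, abs_of_pos hρ,
            div_lt_one hρ]
          exact hu
        · show (e.symm (c + (ρ : ℂ) * ((g u - c) / (ρ : ℂ))) : L) = u
          rw [mul_div_cancel₀ _ hρC, add_sub_cancel, hes]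
    rw [himg]
    exact hU.isOpenMap_subtype_val _ (isOpen_ball.preimage hg.continuous)

theorem hCMN : StCMN := by
  intro X _ _ _ _ hHM hLH L _ O φ0 hO l
  let _ := TopologicalSpace.metrizableSpaceMetric X
  obtain ⟨hI⟩ := ioo_homeo
  have φ : ↥O ≃ₜ ℝ × L :=
    (φ0.trans (Homeomorph.prodComm L ↥(Ioo (0 : ℝ) 1))).trans (hI.symm.prodCongr (Homeomorph.refl L))
  have hHU : HM ↥O := aOPN X O hO hHM
  have hlpU : LocallyPathConnectedSpace ↥O := hO.locallyPathConnectedSpace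
  have hemb : IsEmbedding (fun a : L => φ.symm ((0 : ℝ), a)) :=
    φ.symm.isEmbedding.comp (isEmbedding_prodMkRight (0 : ℝ))
  have hmA : TopologicalSpace.MetrizableSpace L := hemb.metrizableSpace
  obtain ⟨t1, t2⟩ := Pool.Agent.Helper13.TW.aTR1 ↥O L φ
  have hLA : LH1 L := t1 (lh1_open aPSH O hO hLH)
  have hlA : LocallyPathConnectedSpace L := t2 hlpU
  have hHA : HM (ℝ × L) := aHOM ↥O (ℝ × L) ⟨φ⟩ hHU
  have hH2 := Pool.Agent.Helper13.TW.aDSC L hHA
  obtain ⟨U2, hU2, haU2, g, hg⟩ := Pool.Agent.Helper13.TW.aFIN2 L hH2 hLA l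
  exact disc l U2 hU2 haU2 g hg

end Pool.Agent.Helper36.CWS
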